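import Pool.Agent.H91.NV.LTargets

/-!
# Row L_MPW of `nvk_modules`: means, products over primes
-/

set_option autoImplicit false

open MeasureTheory Set Filter NumberField NumberField.InfinitePlace
open scoped Real

namespace Pool.Agent.H1.NVK_MPW

open Pool.Agent.H65.CM4 Pool.Agent.H61.NVK Pool.Agent.H89.NV Pool.Agent.H91.NV

section

variable {k : Type} [Field k] [NumberField k]

theorem coprime_of_not_dvd (P : PrI k) (q : Ideal (𝓞 k)) (h : ¬ P.1 ∣ q) : IsCoprime q P.1 := by
  have hP : P.1.IsMaximal := P.2.1.isMaximal P.2.2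
  rw [Ideal.isCoprime_iff_sup_eq]
  by_contra hn
  have h1 : P.1 = q ⊔ P.1 := hP.eq_of_le hn le_sup_right
  apply h
  rw [Ideal.dvd_iff_le, h1]
  exact le_sup_left

theorem coprime_of_ne (P Q : PrI k) (h : Q ≠ P) : IsCoprime Q.1 P.1 := by
  apply coprime_of_not_dvd
  intro hd
  rw [Ideal.dvd_iff_le] at hd
  have hQ : Q.1.IsMaximal := Q.2.1.isMaximal Q.2.2
  exact h (Subtype.ext (hQ.eq_of_le P.2.1.ne_top hd))

end

variable (k : Type) [Field k] [NumberField k] [IsTotallyReal k]

theorem pf_MPW (hMIA : T_MIA k) (hMIP : T_MIP k) : T_MPW k := by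
  classical
  intro M q R w g hM hq
  induction R using Finset.induction_on with
  | empty =>
    intro _ hw _
    have h1 : idS (∅ : Finset (PrI k)) = 1 := Finset.prod_empty
    rw [h1, one_pow, mul_one, Finset.prod_empty, mul_one]
    simp only [Finset.prod_empty, mul_one]
  | insert P R hP ih =>
    intro hR hw hg
    have hR' : ∀ Q ∈ R, ¬ Q.1 ∣ q := fun Q hQ => hR Q (Finset.mem_insert_of_mem hQ)
    have hg' : ∀ Q ∈ R, Per M (Q.1 ^ 2) (g Q) := fun Q hQ => hg Q (Finset.mem_insert_of_mem hQ)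
    have h1 : idS (insert P R) = P.1 * idS R := Finset.prod_insert hP
    have h2 : q * idS (insert P R) ^ 2 = (q * idS R ^ 2) * P.1 ^ 2 := by
      rw [h1]
      ring
    have hP0 : P.1 ^ 2 ≠ ⊥ := pow_ne_zero 2 P.2.2
    have hS0 : idS R ≠ ⊥ := by
      change ∏ Q ∈ R, Q.1 ≠ 0
      exact Finset.prod_ne_zero_iff.mpr (fun Q _ => Q.2.2)
    have hq0 : q * idS R ^ 2 ≠ ⊥ := mul_ne_zero hq (pow_ne_zero 2 hS0)
    have hco : IsCoprime (q * idS R ^ 2) (P.1 ^ 2) := by
      apply IsCoprime.mul_left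
      · exact (coprime_of_not_dvd P q (hR P (Finset.mem_insert_self P R))).pow_right
      · apply IsCoprime.pow
        apply IsCoprime.prod_left
        intro Q hQ
        apply coprime_of_ne
        rintro rfl
        exact hP hQ
    have hper : Per M (q * idS R ^ 2) (fun x => w x * ∏ Q ∈ R, g Q x) := by
      intro x hx y hy
      have hle0 : q * idS R ^ 2 ≤ q := Ideal.mul_le_left
      have hle1 : (q * idS R ^ 2) * M ≤ q * M := Ideal.mul_mono_left hle0
      have hy1 : y ∈ q * M := hle1 hy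
      have e1 : w (x + y) = w x := hw x hx y hy1
      have e2 : ∏ Q ∈ R, g Q (x + y) = ∏ Q ∈ R, g Q x := by
        apply Finset.prod_congr rfl
        intro Q hQ
        have hle : q * idS R ^ 2 ≤ Q.1 ^ 2 := by
          rw [← Ideal.dvd_iff_le]
          exact Dvd.dvd.mul_left (pow_dvd_pow_of_dvd (Finset.dvd_prod_of_mem _ hQ) 2) q
        have hle2 : (q * idS R ^ 2) * M ≤ Q.1 ^ 2 * M := Ideal.mul_mono_left hle
        exact hg' Q hQ x hx y (hle2 hy)
      change w (x + y) * ∏ Q ∈ R, g Q (x + y) = w x * ∏ Q ∈ R, g Q x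
      rw [e1, e2]
    have h3 := hMIP M (q * idS R ^ 2) (P.1 ^ 2) (fun x => w x * ∏ Q ∈ R, g Q x) (g P) hM hq0 hP0
      hco hper (hg P (Finset.mem_insert_self P R))
    rw [h2, Finset.prod_insert hP]
    have h4 : (fun x => w x * ∏ Q ∈ insert P R, g Q x) =
        fun x => (w x * ∏ Q ∈ R, g Q x) * g P x := by
      funext x
      rw [Finset.prod_insert hP]
      ring
    rw [h4, h3, ih hR' hw hg']
    ring

end Pool.Agent.H1.NVK_MPW
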