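import Pool.Agent.H91.NV.LTargets
import Pool.Agent.H1.NVP.RSF

/-!
# Row L_NRC of `nvk_modules`: the mean of the number of roots over the last coefficient
-/

set_option autoImplicit false

open MeasureTheory Set Filter NumberField NumberField.InfinitePlace
open scoped Real

namespace Pool.Agent.H1.NVK_NRC

open Pool.Agent.H65.CM4 Pool.Agent.H61.NVK Pool.Agent.H89.NV Pool.Agent.H91.NV
open Pool.Agent.H1.NVP_RSF (card_coset main)

variable (k : Type) [Field k] [NumberField k] [IsTotallyReal k]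

open Classical in
theorem pf_NRC (hRSB : T_RSB k) : T_NRC k := by
  intro f I J A b hf hI hJ hA hIJ hb
  obtain ⟨J', hJ'⟩ := hIJ
  have hJ'2 : J = J' * I := by rw [hJ', mul_comm]
  have hJ'0 : J' ≠ ⊥ := by
    rintro rfl
    apply hJ
    rw [hJ', Ideal.mul_bot]
  set Λ : Ideal (𝓞 k) := A * f ^ 2 with hΛdef
  have hAf : A * f ≠ ⊥ := mul_ne_zero hA hf
  have hΛ : Λ ≠ ⊥ := mul_ne_zero hA (pow_ne_zero 2 hf)
  have hIΛ : I * Λ ≠ ⊥ := mul_ne_zero hI hΛ
  have hle : I * Λ ≤ Λ := Ideal.mul_le_right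
  have e : J * Λ = J' * (I * Λ) := by rw [hJ'2, mul_assoc]
  have hle2 : J' * (I * Λ) ≤ I * Λ := Ideal.mul_le_right
  have hne2 : J' * (I * Λ) ≠ ⊥ := mul_ne_zero hJ'0 hIΛ
  -- the number of the `c` in a class
  obtain ⟨hsys, hcard⟩ := main k hRSB J' (I * Λ) hJ'0 hIΛ
    ((Rs (J' * (I * Λ))).filter (fun x => x ∈ I * Λ)) (fun x => Finset.mem_filter)
  obtain ⟨hS, -⟩ := hRSB.1 (J' * (I * Λ)) hne2
  have hc : ∀ z ∈ Λ, (((Rs (J * Λ)).filter (fun c => c ∈ Λ)).filter
      (fun c => c - z ∈ I * Λ)).card = Ideal.absNorm J' := by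
    intro z hz
    rw [← hcard, ← card_coset hRSB.2.2 hle2 hS hsys z, e, Finset.filter_filter]
    congr 1
    apply Finset.filter_congr
    intro c _
    constructor
    · rintro ⟨-, h⟩
      exact h
    · intro h
      refine ⟨?_, h⟩
      have h2 := Λ.add_mem (hle h) hz
      rwa [sub_add_cancel] at h2
  -- the number of the `j`
  obtain ⟨-, hcard2⟩ := main k hRSB I (A * f) hI hAf
    ((Rs (I * (A * f))).filter (fun x => x ∈ A * f)) (fun x => Finset.mem_filter)
  -- the values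
  have hz : ∀ j ∈ A * f, -(j ^ 2 + b * j) ∈ Λ := by
    intro j hj
    apply Λ.neg_mem
    have h1 : j * j ∈ (A * f) * (A * f) := Ideal.mul_mem_mul hj hj
    have h2 : (A * f) * (A * f) ≤ Λ := by
      have h3 : (A * f) * (A * f) = A * (A * f ^ 2) := by ring
      rw [h3]
      exact Ideal.mul_le_right
    have h4 : b * j ∈ f * (A * f) := Ideal.mul_mem_mul hb hj
    have h5 : f * (A * f) = Λ := by rw [hΛdef]; ring
    rw [h5] at h4
    have h6 : j ^ 2 ∈ Λ := by
      rw [pow_two]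
      exact h2 h1
    exact Λ.add_mem h6 h4
  unfold mI
  have h7 : ∀ c ∈ (Rs (J * Λ)).filter (fun c => c ∈ Λ), (nr f I A b c : ℝ) =
      ∑ j ∈ (Rs (I * (A * f))).filter (fun x => x ∈ A * f),
        if j ^ 2 + b * j + c ∈ I * Λ then (1 : ℝ) else 0 := by
    intro c _
    unfold Pool.Agent.H89.NV.nr rts
    rw [Finset.card_eq_sum_ones, Nat.cast_sum, ← Finset.filter_filter, Finset.sum_filter]
    apply Finset.sum_congr rfl
    intro j _
    rw [Nat.cast_one]
  rw [Finset.sum_congr rfl h7, Finset.sum_comm]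
  have h8 : ∀ j ∈ (Rs (I * (A * f))).filter (fun x => x ∈ A * f),
      (∑ c ∈ (Rs (J * Λ)).filter (fun c => c ∈ Λ),
        if j ^ 2 + b * j + c ∈ I * Λ then (1 : ℝ) else 0) = nm J' := by
    intro j hj
    rw [← Finset.sum_filter, Finset.sum_const, nsmul_eq_mul, mul_one]
    unfold nm
    rw [← hc _ (hz j (Finset.mem_filter.mp hj).2)]
    congr 2
    apply Finset.filter_congr
    intro c _
    rw [sub_neg_eq_add, add_comm c]
  rw [Finset.sum_congr rfl h8, Finset.sum_const, nsmul_eq_mul, hcard2]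
  have hJn : nm J = (Ideal.absNorm I : ℝ) * nm J' := by
    unfold nm
    rw [hJ', map_mul, Nat.cast_mul]
  rw [← hJn]
  have hJ0 : nm J ≠ 0 := by
    unfold nm
    rw [Nat.cast_ne_zero, Ne, Ideal.absNorm_eq_zero_iff]
    exact hJ
  rw [one_div, inv_mul_cancel₀ hJ0]

end Pool.Agent.H1.NVK_NRC
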